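import Pool.Agent.SGY.Stmts
import Pool.Agent.Helper3_SGP.MAI
import Pool.Agent.Helper39_SGP.INS
import Pool.Agent.Helper56_SGP.CTR

/-!
# SGY, row MAY (helper6): the main induction
-/

set_option autoImplicit false

noncomputable section

namespace Pool.Agent.SGY.H6

open Pool.Agent.SGE Pool.Agent.SGP Pool.Agent.SGY

theorem o_rot (p q r : ℝ × ℝ) : o p q r = o q r p := by unfold o; ring

theorem o_self (p q : ℝ × ℝ) : o p p q = 0 := by unfold o; ring

section

variable {V : Type} [Fintype V] {a b c : V} {E : V → V → Prop} {F : V → V → V → Prop}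

theorem nds (hN : NT a b [a, c, b] E F) : a ≠ b ∧ a ≠ c ∧ b ≠ c := by
  have hnd := hN.nd
  simp only [List.nodup_cons, List.mem_cons, List.not_mem_nil, or_false, not_or,
    not_false_eq_true, List.nodup_nil, and_true] at hnd
  obtain ⟨⟨hac, hab⟩, hcb⟩ := hnd
  exact ⟨hab, hac, fun h => hcb h.symm⟩

theorem rels (hN : NT a b [a, c, b] E F) : Rel E a ∧ Rel E b ∧ Rel E c :=
  ⟨Pool.Agent.SGP.H56.contour_nb hN (by simp), Pool.Agent.SGP.H56.contour_nb hN (by simp),
    Pool.Agent.SGP.H56.contour_nb hN (by simp)⟩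

theorem bas (hN : NT a b [a, c, b] E F) (hI : Inn a b c E = ∅) (D : ℕ → ℕ) :
    ∃ f π, GdT a b c E F f ∧ GdY a b c (Inn a b c E) 0 D f π := by
  obtain ⟨f, π, hG⟩ := Pool.Agent.SGP.H3.base hN hI (fun _ => 0)
  refine ⟨f, π, ⟨hG.gp, hG.tri, hG.ins, hG.fac⟩, ?_⟩
  refine ⟨?_, ?_, ?_, ?_, ?_⟩
  · intro i h1 h2
    omega
  · intro i j h1 h2
    omega
  · intro x hx
    rw [hI] at hx
    exact absurd hx (Set.notMem_empty _)
  · intro i j hij hj
    have hi : i = 0 := by omega
    have hj' : j = 1 := by omega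
    subst hi
    subst hj'
    have h0 : ps b c 0 π 0 = c := by simp [ps]
    have h1 : ps b c 0 π 1 = b := by simp [ps]
    rw [h0, h1]
    exact hG.tri
  · intro i l j h1 h2 h3
    omega

theorem inn_hub {s : V} {E' : V → V → Prop} {F' : V → V → V → Prop}
    (hH : Hub a b c E F s E' F') :
    Inn a b c E = insert s (Inn a b c E') ∧ s ∉ Inn a b c E' := by
  constructor
  · ext x
    constructor
    · rintro ⟨h1, h2, h3, h4⟩
      rcases (hH.rel x).1 h4 with h | h
      · exact Or.inl h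
      · exact Or.inr ⟨h1, h2, h3, h⟩
    · rintro (h | ⟨h1, h2, h3, h4⟩)
      · subst h
        exact ⟨hH.sa, hH.sb, hH.sc, (hH.rel _).2 (Or.inl rfl)⟩
      · exact ⟨h1, h2, h3, (hH.rel x).2 (Or.inr h4)⟩
  · rintro ⟨-, -, -, y, hy⟩
    exact hH.iso y hy

end

theorem may (hDEC : DecStmt) (hGLU : GluStmt) (hHST : HstStmt) (hCST : CstStmt) : MayStmt := by
  intro k
  induction k using Nat.strong_induction_on with
  | _ k ih =>
  intro V _ a b c E F D hN hk
  classical
  obtain ⟨hab, hac, hbc⟩ := nds hN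
  rcases Nat.eq_zero_or_pos k with hk0 | hkp
  · subst hk0
    exact bas hN ((Set.ncard_eq_zero (Set.toFinite _)).1 hk) D
  obtain ⟨k, rfl⟩ : ∃ j, k = j + 1 := ⟨k - 1, by omega⟩
  have hne : (Inn a b c E).Nonempty := by
    rw [← Set.ncard_pos (Set.toFinite _), hk]
    exact hkp
  rcases hDEC hN hne with ⟨s, E', F', hH⟩ | ⟨K, E₁, F₁, E₂, F₂, hC⟩
  · -- hub
    obtain ⟨hI, hs⟩ := inn_hub hH
    have hk' : (Inn a b c E').ncard = k := by
      have h := Set.ncard_insert_of_notMem hs (Set.toFinite _)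
      rw [← hI, hk] at h
      omega
    obtain ⟨m, hm, hmax⟩ := Finset.exists_max_image (Finset.Icc 1 (k + 1)) D
      ⟨1, Finset.mem_Icc.2 ⟨le_rfl, by omega⟩⟩
    obtain ⟨hm1, hm2⟩ := Finset.mem_Icc.1 hm
    obtain ⟨f, π', hT, hY⟩ := ih k (by omega) (fun i => if i < m then D i else D (i + 1)) hH.nt hk'
    obtain ⟨ra, rb, rc⟩ := rels hH.nt
    have hne1 : ∀ y, Rel E' y → y ≠ a → f y ≠ f a := by
      intro y hy hya hfy
      by_cases hyb : y = b
      · subst hyb
        have h := hT.tri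
        rw [hfy, o_self] at h
        exact lt_irrefl _ h
      · have h := hT.gp a y b ra hy rb hya.symm hab hyb
        rw [hfy, o_self] at h
        exact h rfl
    obtain ⟨X, hX⟩ := Pool.Agent.SGP.H39.ins a (ps b c k π' m) (ps b c k π' (m - 1)) (Rel E') f
      (hY.rad (m - 1) m (by omega) hm2) hne1
      (fun y z hy hz hya hza hyz => hT.gp a y z ra hy hz hya.symm hza.symm hyz)
    have h := hHST (D := D) (D' := fun i => if i < m then D i else D (i + 1)) (π' := π')
      (π := fun i => if i < m then π' i else if i = m then s else π' (i - 1)) (m := m) (X := X)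
      hN hH hT hY hm1 hm2 (fun i h1 h2 => hmax i (Finset.mem_Icc.2 ⟨h1, h2⟩))
      (fun i hi => if_pos hi) (fun i hi => if_neg (by omega))
      (fun i hi => if_pos hi) (by simp)
      (fun i hi => by
        show (if i < m then π' i else if i = m then s else π' (i - 1)) = π' (i - 1)
        rw [if_neg (by omega), if_neg (by omega)]) hX
    exact ⟨_, _, h.1, h.2⟩
  · -- cut
    have hκ0 : 0 < K.ncard := (Set.ncard_pos (Set.toFinite _)).2 hC.ne
    have hκ1 : 0 < (Inn a b c E \ K).ncard := (Set.ncard_pos (Set.toFinite _)).2 hC.ne'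
    have hκ2 : (Inn a b c E \ K).ncard + K.ncard = (Inn a b c E).ncard :=
      Set.ncard_sdiff_add_ncard_of_subset hC.sub (Set.toFinite _)
    obtain ⟨f₁, π₁, hT₁, hY₁⟩ := ih (k + 1 - K.ncard) (by omega) (fun i => D (i + K.ncard)) hC.nt1
      (by rw [hC.inn1]; omega)
    obtain ⟨f₂, π₂, hT₂, hY₂⟩ := ih K.ncard (by omega) D hC.nt2 (by rw [hC.inn2])
    have haK : a ∉ K := fun h => (hC.sub h).1 rfl
    have hbK : b ∉ K := fun h => (hC.sub h).2.1 rfl
    have hcK : c ∉ K := fun h => (hC.sub h).2.2.1 rfl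
    obtain ⟨g, hg⟩ := hGLU K {x | Rel E x} f₁ f₂ hab hac hbc haK hbK hcK hT₁.tri hT₂.tri
      (by
        intro x hx hxK hxa hxc
        by_cases hxb : x = b
        · subst hxb
          have h := hT₁.tri
          rw [o_rot, o_rot] at h
          exact h
        · have hxI : x ∈ Inn a b c E₁ := by
            rw [hC.inn1]
            exact ⟨⟨hxa, hxb, hxc, hx⟩, hxK⟩
          exact (hT₁.ins x hxI).2.2)
      (by
        intro x hx
        exact hT₂.ins x (by rw [hC.inn2]; exact hx))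
    have h := hCST (k := k + 1) (κ := K.ncard) (D := D) (D₁ := fun i => D (i + K.ncard))
      (f₁ := f₁) (f₂ := f₂) (g := g) (π₁ := π₁) (π₂ := π₂)
      (π := fun i => if i ≤ K.ncard then π₂ i else π₁ (i - K.ncard)) hN hC (by omega) hT₁ hY₁ hT₂
      hY₂ (fun i => rfl) (fun i hi => if_pos hi) (fun i hi => if_neg (by omega))
      (fun x y z hx hy hz => hg x y z hx hy hz)
    exact ⟨g, _, h.1, h.2⟩

end Pool.Agent.SGY.H6
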